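import Mathlib

/-!
For every `b ≥ 1` there is a finite connected simple graph with exactly `b` irreducible FAT
colorings (counted as partitions up to automorphisms of the graph).
-/

namespace Pool.Agent.Results.MP_48b99b_co.EveryCount

open Finset

/-- The number of neighbours of `v` in the colour class `i` of `c`. -/
noncomputable def nbrsIn {V : Type} [Fintype V] (G : SimpleGraph V) {k : ℕ} (c : V → Fin k)
    (v : V) (i : Fin k) : ℕ := by
  classical exact (univ.filter (fun w => G.Adj v w ∧ c w = i)).card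

/-- The degree of `v`. -/
noncomputable def deg {V : Type} [Fintype V] (G : SimpleGraph V) (v : V) : ℕ := by
  classical exact (univ.filter (fun w => G.Adj v w)).card

/-- `c` is a FAT `k`-coloring of `G`. -/
def IsFAT {V : Type} [Fintype V] (G : SimpleGraph V) {k : ℕ} (c : V → Fin k) : Prop :=
  ∃ α : ℝ, 0 ≤ α ∧ α ≤ 1 ∧
    ∀ (v : V) (i : Fin k),
      (c v ≠ i → (nbrsIn G c v i : ℝ) = α * (deg G v : ℝ)) ∧
      (c v = i → (nbrsIn G c v i : ℝ) = (1 - ((k : ℝ) - 1) * α) * (deg G v : ℝ))

/-- The partition (equivalence relation) `r` is the partition into nonempty colour classes of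
some FAT coloring of `G`, with any number of colours. -/
def IsFATPartition {V : Type} [Fintype V] (G : SimpleGraph V) (r : Setoid V) : Prop :=
  ∃ (k : ℕ) (c : V → Fin k), IsFAT G c ∧ ∀ v w, r v w ↔ c v = c w

/-- `r` is an irreducible FAT partition: no FAT partition is strictly finer. -/
def IsIrreducible {V : Type} [Fintype V] (G : SimpleGraph V) (r : Setoid V) : Prop :=
  IsFATPartition G r ∧ ∀ r' : Setoid V, IsFATPartition G r' → r' ≤ r → r' = r

/-- Two irreducible FAT partitions are identified if an automorphism of `G` maps one onto the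
other. -/
def autSetoid {V : Type} [Fintype V] (G : SimpleGraph V) :
    Setoid {r : Setoid V // IsIrreducible G r} where
  r := fun r r' => ∃ φ : G ≃g G, ∀ v w, r.1 v w ↔ r'.1 (φ v) (φ w)
  iseqv := by
    refine ⟨fun r => ⟨SimpleGraph.Iso.refl, fun v w => Iff.rfl⟩, ?_, ?_⟩
    · rintro r r' ⟨φ, h⟩
      refine ⟨φ.symm, fun v w => ?_⟩
      rw [h]
      simp
    · rintro r r' r'' ⟨φ, h⟩ ⟨ψ, h'⟩
      refine ⟨φ.trans ψ, fun v w => ?_⟩
      rw [h, h']
      simp

/-- The number of irreducible FAT colorings of `G`: the number of orbits of irreducible FAT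
partitions under the automorphism group. -/
noncomputable def numIrreducible {V : Type} [Fintype V] (G : SimpleGraph V) : ℕ :=
  Nat.card (Quotient (autSetoid G))

/-- The vertex set of the example. -/
abbrev W (s : ℕ) : Type := (Fin 3 × Fin s) ⊕ (Fin 2 × Fin 2)

/-- adjacency of the example -/
def adj (s : ℕ) : W s → W s → Prop
  | Sum.inl p, Sum.inr q => p.1.val = q.1.val ∨ p.1.val = q.1.val + 1
  | Sum.inr q, Sum.inl p => p.1.val = q.1.val ∨ p.1.val = q.1.val + 1
  | _, _ => False

/-- The example. -/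
def H (s : ℕ) : SimpleGraph (W s) where
  Adj := adj s
  symm := ⟨by
    intro x y h
    rcases x with x | x <;> rcases y with y | y <;> simp [adj] at h ⊢ <;> exact h⟩
  loopless := ⟨by
    intro x h
    rcases x with x | x <;> simp [adj] at h⟩

lemma H_adj (s : ℕ) (x y : W s) : (H s).Adj x y ↔ adj s x y := Iff.rfl

/-- counting the elements of a row with colour `i` -/
noncomputable def cnt {s k : ℕ} (c : W s → Fin k) (j : Fin 3) (i : Fin k) : ℕ :=
  (univ.filter (fun m : Fin s => c (Sum.inl (j, m)) = i)).card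

lemma nbrs_inr0 {s k : ℕ} (c : W s → Fin k) (e : Fin 2) (i : Fin k) :
    nbrsIn (H s) c (Sum.inr (0, e)) i = cnt c 0 i + cnt c 1 i := by
  classical
  unfold nbrsIn cnt
  simp only [H_adj, card_filter]
  rw [Fintype.sum_sum_type, Fintype.sum_prod_type, Fintype.sum_prod_type]
  simp [Fin.sum_univ_succ, adj]

lemma nbrs_inr1 {s k : ℕ} (c : W s → Fin k) (e : Fin 2) (i : Fin k) :
    nbrsIn (H s) c (Sum.inr (1, e)) i = cnt c 1 i + cnt c 2 i := by
  classical
  unfold nbrsIn cnt
  simp only [H_adj, card_filter]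
  rw [Fintype.sum_sum_type, Fintype.sum_prod_type, Fintype.sum_prod_type]
  simp [Fin.sum_univ_succ, adj]

lemma card_two (P : Fin 2 → Prop) [DecidablePred P] :
    (univ.filter (fun x => P x)).card = (if P 0 then 1 else 0) + (if P 1 then 1 else 0) := by
  rw [card_filter, Fin.sum_univ_two]

/-- indicator of a colour -/
def ind {k : ℕ} (a i : Fin k) : ℕ := if a = i then 1 else 0

lemma nbrs_inl0 {s k : ℕ} (c : W s → Fin k) (m : Fin s) (i : Fin k) :
    nbrsIn (H s) c (Sum.inl (0, m)) i =
      ind (c (Sum.inr (0, 0))) i + ind (c (Sum.inr (0, 1))) i := by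
  classical
  unfold nbrsIn ind
  simp only [H_adj, card_filter]
  rw [Fintype.sum_sum_type, Fintype.sum_prod_type, Fintype.sum_prod_type]
  simp [Fin.sum_univ_succ, adj, card_two]

lemma nbrs_inl1 {s k : ℕ} (c : W s → Fin k) (m : Fin s) (i : Fin k) :
    nbrsIn (H s) c (Sum.inl (1, m)) i =
      (ind (c (Sum.inr (0, 0))) i + ind (c (Sum.inr (0, 1))) i) +
      (ind (c (Sum.inr (1, 0))) i + ind (c (Sum.inr (1, 1))) i) := by
  classical
  unfold nbrsIn ind
  simp only [H_adj, card_filter]
  rw [Fintype.sum_sum_type, Fintype.sum_prod_type, Fintype.sum_prod_type]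
  simp [Fin.sum_univ_succ, adj, card_two]

lemma nbrs_inl2 {s k : ℕ} (c : W s → Fin k) (m : Fin s) (i : Fin k) :
    nbrsIn (H s) c (Sum.inl (2, m)) i =
      ind (c (Sum.inr (1, 0))) i + ind (c (Sum.inr (1, 1))) i := by
  classical
  unfold nbrsIn ind
  simp only [H_adj, card_filter]
  rw [Fintype.sum_sum_type, Fintype.sum_prod_type, Fintype.sum_prod_type]
  simp [Fin.sum_univ_succ, adj, card_two]

lemma deg_inr {s : ℕ} (q : Fin 2 × Fin 2) : deg (H s) (Sum.inr q) = 2 * s := by
  classical
  obtain ⟨a, e⟩ := q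
  unfold deg
  simp only [H_adj, card_filter]
  rw [Fintype.sum_sum_type, Fintype.sum_prod_type, Fintype.sum_prod_type]
  fin_cases a <;> simp [Fin.sum_univ_succ, adj] <;> ring

lemma deg_inl0 {s : ℕ} (m : Fin s) : deg (H s) (Sum.inl (0, m)) = 2 := by
  classical
  unfold deg
  simp only [H_adj, card_filter]
  rw [Fintype.sum_sum_type, Fintype.sum_prod_type, Fintype.sum_prod_type]
  simp [Fin.sum_univ_succ, adj]

lemma deg_inl1 {s : ℕ} (m : Fin s) : deg (H s) (Sum.inl (1, m)) = 4 := by
  classical
  unfold deg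
  simp only [H_adj, card_filter]
  rw [Fintype.sum_sum_type, Fintype.sum_prod_type, Fintype.sum_prod_type]
  simp [Fin.sum_univ_succ, adj]

lemma deg_inl2 {s : ℕ} (m : Fin s) : deg (H s) (Sum.inl (2, m)) = 2 := by
  classical
  unfold deg
  simp only [H_adj, card_filter]
  rw [Fintype.sum_sum_type, Fintype.sum_prod_type, Fintype.sum_prod_type]
  simp [Fin.sum_univ_succ, adj]

/-- The bipartition colouring. -/
def bip (s : ℕ) : W s → Fin 2
  | Sum.inl _ => 0
  | Sum.inr _ => 1

/-- The colouring `P_t`. -/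
def col (s t : ℕ) : W s → Fin 2
  | Sum.inl p => if p.1 = 1 then (if p.2.val < t then 0 else 1) else
      (if p.2.val < s - t then 0 else 1)
  | Sum.inr q => q.2

lemma card_lt (s t : ℕ) (h : t ≤ s) : (univ.filter (fun m : Fin s => m.val < t)).card = t := by
  have := Fin.card_filter_val_lt (n := s) (m := t)
  simpa [h] using this

lemma card_ge (s t : ℕ) (h : t ≤ s) :
    (univ.filter (fun m : Fin s => ¬ m.val < t)).card = s - t := by
  have h1 := card_lt s t h
  have h2 := Finset.card_filter_add_card_filter_not (s := (univ : Finset (Fin s)))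
    (fun m : Fin s => m.val < t)
  simp only [card_univ, Fintype.card_fin] at h2
  omega

lemma cnt_col_1 (s t : ℕ) (h : t ≤ s) : cnt (col s t) 1 0 = t ∧ cnt (col s t) 1 1 = s - t := by
  constructor
  · unfold cnt
    conv_rhs => rw [← card_lt s t h]
    apply congrArg Finset.card
    ext m
    simp [col]
  · unfold cnt
    rw [← card_ge s t h]
    apply congrArg Finset.card
    ext m
    simp [col]

lemma cnt_col_0 (s t : ℕ) (h : t ≤ s) (j : Fin 3) (hj : j ≠ 1) :
    cnt (col s t) j 0 = s - t ∧ cnt (col s t) j 1 = t := by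
  constructor
  · unfold cnt
    conv_rhs => rw [← card_lt s (s - t) (by omega)]
    apply congrArg Finset.card
    ext m
    simp [col, hj]
    omega
  · unfold cnt
    have : t = s - (s - t) := by omega
    conv_rhs => rw [this, ← card_ge s (s - t) (by omega)]
    apply congrArg Finset.card
    ext m
    simp [col, hj]

lemma fat_bip (s : ℕ) : IsFAT (H s) (bip s) := by
  refine ⟨1, by norm_num, le_refl _, ?_⟩
  intro v i
  have key : ((nbrsIn (H s) (bip s) v i : ℕ)) = if bip s v = i then 0 else deg (H s) v := by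
    classical
    unfold nbrsIn deg
    split_ifs with h
    · rw [card_eq_zero, filter_eq_empty_iff]
      rintro w - ⟨h1, h2⟩
      rw [H_adj] at h1
      rcases v with v | v <;> rcases w with w | w <;> simp [adj, bip] at h1 h2 h
      · rw [← h] at h2; simp at h2
      · rw [← h] at h2; simp at h2
    · apply congrArg Finset.card
      ext w
      simp only [mem_filter, mem_univ, true_and, and_iff_left_iff_imp]
      intro h1
      rw [H_adj] at h1
      rcases v with v | v <;> rcases w with w | w <;> simp [adj, bip] at h1 h ⊢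
      · omega
      · omega
  constructor
  · intro h
    rw [key, if_neg h]
    ring
  · intro h
    rw [key, if_pos h]
    norm_num

lemma fat_col (s t : ℕ) (h : t ≤ s) : IsFAT (H s) (col s t) := by
  refine ⟨1 / 2, by norm_num, by norm_num, ?_⟩
  have key : ∀ v i, 2 * (nbrsIn (H s) (col s t) v i : ℕ) = deg (H s) v := by
    intro v i
    have h1 := cnt_col_1 s t h
    have h0 := cnt_col_0 s t h 0 (by decide)
    have h2 := cnt_col_0 s t h 2 (by decide)
    rcases v with ⟨j, m⟩ | ⟨a, e⟩
    · fin_cases j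
      · change 2 * nbrsIn (H s) (col s t) (Sum.inl (0, m)) i = deg (H s) (Sum.inl (0, m))
        rw [nbrs_inl0, deg_inl0]
        fin_cases i <;> simp [col, ind]
      · change 2 * nbrsIn (H s) (col s t) (Sum.inl (1, m)) i = deg (H s) (Sum.inl (1, m))
        rw [nbrs_inl1, deg_inl1]
        fin_cases i <;> simp [col, ind]
      · change 2 * nbrsIn (H s) (col s t) (Sum.inl (2, m)) i = deg (H s) (Sum.inl (2, m))
        rw [nbrs_inl2, deg_inl2]
        fin_cases i <;> simp [col, ind]
    · rw [deg_inr]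
      fin_cases a
      · change 2 * nbrsIn (H s) (col s t) (Sum.inr (0, e)) i = _
        rw [nbrs_inr0]
        fin_cases i
        · change 2 * (cnt (col s t) 0 0 + cnt (col s t) 1 0) = _
          rw [h0.1, h1.1]; omega
        · change 2 * (cnt (col s t) 0 1 + cnt (col s t) 1 1) = _
          rw [h0.2, h1.2]; omega
      · change 2 * nbrsIn (H s) (col s t) (Sum.inr (1, e)) i = _
        rw [nbrs_inr1]
        fin_cases i
        · change 2 * (cnt (col s t) 1 0 + cnt (col s t) 2 0) = _
          rw [h2.1, h1.1]; omega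
        · change 2 * (cnt (col s t) 1 1 + cnt (col s t) 2 1) = _
          rw [h2.2, h1.2]; omega
  intro v i
  have hk := key v i
  have hk' : (2 : ℝ) * (nbrsIn (H s) (col s t) v i : ℝ) = (deg (H s) v : ℝ) := by
    exact_mod_cast hk
  constructor
  · intro _
    linarith
  · intro _
    push_cast
    linarith

lemma nbrs_pos {V : Type} [Fintype V] (G : SimpleGraph V) {k : ℕ} (c : V → Fin k) (v w : V)
    (h : G.Adj v w) : 0 < nbrsIn G c v (c w) := by
  classical
  unfold nbrsIn
  rw [card_pos]
  exact ⟨w, by simp [h]⟩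

lemma reach (s : ℕ) (hs : 0 < s) (v : W s) :
    (H s).Reachable v (Sum.inl (1, ⟨0, hs⟩)) := by
  have hx : ∀ q : Fin 2 × Fin 2, (H s).Reachable (Sum.inr q) (Sum.inl (1, ⟨0, hs⟩)) := by
    intro q
    apply SimpleGraph.Adj.reachable
    rw [H_adj]
    obtain ⟨a, e⟩ := q
    fin_cases a <;> simp [adj]
  rcases v with ⟨j, m⟩ | q
  · have : ∃ q : Fin 2 × Fin 2, (H s).Adj (Sum.inl (j, m)) (Sum.inr q) := by
      fin_cases j
      · exact ⟨(0, 0), by simp [H_adj, adj]⟩
      · exact ⟨(0, 0), by simp [H_adj, adj]⟩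
      · exact ⟨(1, 0), by simp [H_adj, adj]⟩
    obtain ⟨q, hq⟩ := this
    exact hq.reachable.trans (hx q)
  · exact hx q

lemma connected (s : ℕ) (hs : 0 < s) : (H s).Connected := by
  have : Nonempty (W s) := ⟨Sum.inl (1, ⟨0, hs⟩)⟩
  refine ⟨fun v w => (reach s hs v).trans (reach s hs w).symm⟩

lemma const_of_local {V : Type} (G : SimpleGraph V) {β : Type} (c : V → β)
    (h : ∀ v w, G.Adj v w → c v = c w) {v w : V} (hr : G.Reachable v w) : c v = c w := by
  obtain ⟨p⟩ := hr
  induction p with
  | nil => rfl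
  | cons h1 _ ih => exact (h _ _ h1).trans ih

lemma fin2_of_ne {a b c : Fin 2} (h1 : a ≠ c) (h2 : b ≠ c) : a = b := by
  omega

lemma fin3_of_ne {a b x y : Fin 3} (hxy : x ≠ y) (h1 : a ≠ x) (h2 : a ≠ y) (h3 : b ≠ x)
    (h4 : b ≠ y) : a = b := by
  omega

lemma classify (s : ℕ) (hs : 0 < s) {k : ℕ} (c : W s → Fin k) (hF : IsFAT (H s) c) :
    (∀ v w, c v = c w) ∨ (k = 2 ∧ ∀ v w, (H s).Adj v w → c v ≠ c w) ∨
      (k = 2 ∧ ∀ v i, 2 * nbrsIn (H s) c v i = deg (H s) v) := by
  obtain ⟨α, h0, h1, hF⟩ := hF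
  set a : W s := Sum.inl (0, ⟨0, hs⟩) with ha
  by_cases hk : ∃ i : Fin k, c a ≠ i
  · obtain ⟨i, hi⟩ := hk
    have hdega : deg (H s) a = 2 := deg_inl0 _
    have e1 := (hF a i).1 hi
    rw [ha, nbrs_inl0, ← ha, hdega] at e1
    have e2 : α = 0 ∨ α = 1 / 2 ∨ α = 1 := by
      unfold ind at e1
      split_ifs at e1
      · right; right; push_cast at e1; linarith
      · right; left; push_cast at e1; linarith
      · right; left; push_cast at e1; linarith
      · left; push_cast at e1; linarith
    have hbeta : (0 : ℝ) ≤ 1 - ((k : ℝ) - 1) * α := by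
      have e3 := (hF a (c a)).2 rfl
      rw [hdega] at e3
      have e4 : (0 : ℝ) ≤ (nbrsIn (H s) c a (c a) : ℝ) := Nat.cast_nonneg _
      rw [e3] at e4
      push_cast at e4
      linarith
    have hk2 : 2 ≤ k := by
      by_contra hcon
      have hk1 : k ≤ 1 := by omega
      apply hi
      have h2 := (c a).isLt
      have h3 := i.isLt
      apply Fin.ext
      omega
    have hkR : (2 : ℝ) ≤ (k : ℝ) := by exact_mod_cast hk2
    rcases e2 with e2 | e2 | e2
    · left
      have hloc : ∀ v w, (H s).Adj v w → c v = c w := by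
        intro v w hvw
        by_contra hne
        have h4 := (hF v (c w)).1 hne
        rw [e2, zero_mul] at h4
        have h5 := nbrs_pos (H s) c v w hvw
        have h6 : nbrsIn (H s) c v (c w) = 0 := by exact_mod_cast h4
        omega
      intro v w
      exact const_of_local (H s) c hloc ((connected s hs).preconnected v w)
    · right; right
      rw [e2] at hbeta
      have hk3 : (k : ℝ) ≤ 3 := by linarith
      have hk3' : k ≤ 3 := by exact_mod_cast hk3
      have hkk : k = 2 ∨ k = 3 := by omega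
      rcases hkk with hkk | hkk
      · refine ⟨hkk, ?_⟩
        intro v i
        have h7 : (2 : ℝ) * (nbrsIn (H s) c v i : ℝ) = (deg (H s) v : ℝ) := by
          by_cases hvi : c v = i
          · rw [(hF v i).2 hvi, e2, hkk]
            push_cast
            ring
          · rw [(hF v i).1 hvi, e2]
            ring
        exact_mod_cast h7
      · exfalso
        subst hkk
        have hprop : ∀ v w, (H s).Adj v w → c v ≠ c w := by
          intro v w hvw heq
          have h4 := (hF v (c w)).2 heq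
          rw [e2] at h4
          have h5 := nbrs_pos (H s) c v w hvw
          have h6 : (nbrsIn (H s) c v (c w) : ℝ) = 0 := by
            rw [h4]; push_cast; ring
          have h6' : nbrsIn (H s) c v (c w) = 0 := by exact_mod_cast h6
          omega
        have hx : c (Sum.inr (0, 0)) ≠ c (Sum.inr (0, 1)) := by
          intro heq
          have hne : c a ≠ c (Sum.inr (0, 0)) := hprop _ _ (by simp [ha, H_adj, adj])
          have h8 := (hF a _).1 hne
          rw [hdega, ha, nbrs_inl0, e2] at h8
          unfold ind at h8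
          rw [if_pos rfl, if_pos heq.symm] at h8
          norm_num at h8
        set z := c a with hz
        have hz1 : z ≠ c (Sum.inr (0, 0)) := hprop _ _ (by simp [ha, H_adj, adj])
        have hz2 : z ≠ c (Sum.inr (0, 1)) := hprop _ _ (by simp [ha, H_adj, adj])
        have hA : ∀ m : Fin s, c (Sum.inl (0, m)) = z := by
          intro m
          exact fin3_of_ne hx (hprop _ _ (by simp [H_adj, adj])) (hprop _ _ (by simp [H_adj, adj]))
            hz1 hz2
        have hB : ∀ m : Fin s, c (Sum.inl (1, m)) = z := by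
          intro m
          exact fin3_of_ne hx (hprop _ _ (by simp [H_adj, adj])) (hprop _ _ (by simp [H_adj, adj]))
            hz1 hz2
        have h9 := (hF (Sum.inr (0, 0)) z).1 hz1.symm
        rw [nbrs_inr0, deg_inr, e2] at h9
        have c0 : cnt c 0 z = s := by
          unfold cnt
          simp [hA]
        have c1 : cnt c 1 z = s := by
          unfold cnt
          simp [hB]
        rw [c0, c1] at h9
        push_cast at h9
        have hsR : (0 : ℝ) < s := by exact_mod_cast hs
        linarith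
    · right; left
      rw [e2] at hbeta
      have hk3 : (k : ℝ) ≤ 2 := by linarith
      have hk3' : k ≤ 2 := by exact_mod_cast hk3
      have hkk : k = 2 := by omega
      refine ⟨hkk, ?_⟩
      subst hkk
      intro v w hvw heq
      have h4 := (hF v (c w)).2 heq
      rw [e2] at h4
      have h5 := nbrs_pos (H s) c v w hvw
      have h6 : (nbrsIn (H s) c v (c w) : ℝ) = 0 := by
        rw [h4]; push_cast; ring
      have h6' : nbrsIn (H s) c v (c w) = 0 := by exact_mod_cast h6
      omega
  · push Not at hk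
    left
    intro v w
    rw [← hk (c v), ← hk (c w)]

lemma bip_part (s : ℕ) : IsFATPartition (H s) (Setoid.ker (bip s)) :=
  ⟨2, bip s, fat_bip s, fun _ _ => Iff.rfl⟩

lemma col_part (s t : ℕ) (h : t ≤ s) : IsFATPartition (H s) (Setoid.ker (col s t)) :=
  ⟨2, col s t, fat_col s t h, fun _ _ => Iff.rfl⟩

lemma irr_of_ker (s : ℕ) (hs : 0 < s) (g : W s → Fin 2)
    (hg : IsFATPartition (H s) (Setoid.ker g)) (hne : ∃ v w, g v ≠ g w) :
    IsIrreducible (H s) (Setoid.ker g) := by
  refine ⟨hg, ?_⟩
  rintro r' ⟨k, c, hc, hr⟩ hle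
  obtain ⟨v0, w0, h0⟩ := hne
  have hle' : ∀ v w, c v = c w → g v = g w := fun v w h => hle ((hr v w).2 h)
  have two : ∀ (c' : W s → Fin 2), (∀ v w, c' v = c' w ↔ c v = c w) → r' = Setoid.ker g := by
    intro c' hc'
    apply Setoid.ext
    intro v w
    constructor
    · intro h
      exact hle h
    · intro h
      have h' : g v = g w := h
      rw [hr]
      by_contra hcon
      have hcon' : c' v ≠ c' w := fun h1 => hcon ((hc' v w).1 h1)
      have all : ∀ u, g u = g w := by
        intro u
        by_cases h2 : c' u = c' w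
        · exact hle' _ _ ((hc' _ _).1 h2)
        · have h3 : c' u = c' v := fin2_of_ne h2 hcon'
          rw [hle' _ _ ((hc' _ _).1 h3), h']
      exact h0 (by rw [all v0, all w0])
  rcases classify s hs c hc with h | ⟨h, -⟩ | ⟨h, -⟩
  · exact absurd (hle' _ _ (h v0 w0)) h0
  · subst h
    exact two c (fun _ _ => Iff.rfl)
  · subst h
    exact two c (fun _ _ => Iff.rfl)

lemma bip_irr (s : ℕ) (hs : 0 < s) : IsIrreducible (H s) (Setoid.ker (bip s)) :=
  irr_of_ker s hs _ (bip_part s) ⟨Sum.inl (0, ⟨0, hs⟩), Sum.inr (0, 0), by simp [bip]⟩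

lemma col_irr (s : ℕ) (hs : 0 < s) (t : ℕ) (h : t ≤ s) :
    IsIrreducible (H s) (Setoid.ker (col s t)) :=
  irr_of_ker s hs _ (col_part s t h) ⟨Sum.inr (0, 0), Sum.inr (0, 1), by simp [col]⟩

lemma irr_cases (s : ℕ) (hs : 0 < s) (r : Setoid (W s)) (h : IsIrreducible (H s) r) :
    ∃ c : W s → Fin 2, (∀ v w, r v w ↔ c v = c w) ∧
      ((∀ v w, (H s).Adj v w → c v ≠ c w) ∨ ∀ v i, 2 * nbrsIn (H s) c v i = deg (H s) v) := by
  obtain ⟨⟨k, c, hc, hr⟩, hmax⟩ := h
  rcases classify s hs c hc with h | ⟨h, h'⟩ | ⟨h, h'⟩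
  · exfalso
    have e := hmax _ (bip_part s) (fun v w _ => (hr v w).2 (h v w))
    have e2 : (Setoid.ker (bip s)) (Sum.inl (0, ⟨0, hs⟩)) (Sum.inr (0, 0)) := by
      rw [e, hr]
      exact h _ _
    have e3 : bip s (Sum.inl (0, ⟨0, hs⟩)) = bip s (Sum.inr (0, 0)) := e2
    simp [bip] at e3
  · subst h
    exact ⟨c, hr, Or.inl h'⟩
  · subst h
    exact ⟨c, hr, Or.inr h'⟩

lemma eq_bip (s : ℕ) (hs : 0 < s) (c : W s → Fin 2) (h : ∀ v w, (H s).Adj v w → c v ≠ c w)
    (v w : W s) : c v = c w ↔ bip s v = bip s w := by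
  have hX : ∀ q, c (Sum.inr q) ≠ c (Sum.inl (1, ⟨0, hs⟩)) := by
    intro q
    apply h
    obtain ⟨a, e⟩ := q
    fin_cases a <;> simp [H_adj, adj]
  have hX' : ∀ q q', c (Sum.inr q) = c (Sum.inr q') := fun q q' => fin2_of_ne (hX q) (hX q')
  have hY : ∀ p, c (Sum.inl p) ≠ c (Sum.inr (0, 0)) := by
    rintro ⟨j, m⟩
    fin_cases j
    · exact h _ _ (by simp [H_adj, adj])
    · exact h _ _ (by simp [H_adj, adj])
    · rw [hX' (0, 0) (1, 0)]
      exact h _ _ (by simp [H_adj, adj])
  rcases v with v | v <;> rcases w with w | w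
  · simp only [bip, iff_true]
    exact fin2_of_ne (hY v) (hY w)
  · simp only [bip]
    rw [hX' w (0, 0)]
    simp [hY v]
  · simp only [bip]
    rw [hX' v (0, 0)]
    simp [(hY w).symm]
  · simp only [bip, iff_true]
    exact hX' _ _

lemma exists_perm (s t : ℕ) (P : Fin s → Prop) [DecidablePred P]
    (h : (univ.filter (fun m => P m)).card = t) (ht : t ≤ s) :
    ∃ σ : Equiv.Perm (Fin s), ∀ m, P m ↔ (σ m).val < t := by
  have hcard : Fintype.card {m // P m} = Fintype.card {m : Fin s // m.val < t} := by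
    rw [Fintype.card_subtype, Fintype.card_subtype, h, card_lt s t ht]
  obtain ⟨e⟩ := Fintype.card_eq.1 hcard
  refine ⟨e.extendSubtype, fun m => ?_⟩
  by_cases hm : P m
  · simp only [hm, true_iff]
    exact e.extendSubtype_mem m hm
  · simp only [hm, false_iff]
    exact e.extendSubtype_not_mem m hm

/-- The automorphism given by permuting rows. -/
def auto (s : ℕ) (σ : Fin 3 → Equiv.Perm (Fin s)) (τ : Fin 2 → Equiv.Perm (Fin 2)) :
    H s ≃g H s where
  toEquiv := Equiv.sumCongr (Equiv.prodCongrRight σ) (Equiv.prodCongrRight τ)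
  map_rel_iff' := by
    intro x y
    rw [H_adj, H_adj]
    rcases x with x | x <;> rcases y with y | y <;> simp [adj]

lemma auto_inl (s : ℕ) (σ : Fin 3 → Equiv.Perm (Fin s)) (τ : Fin 2 → Equiv.Perm (Fin 2))
    (j : Fin 3) (m : Fin s) : auto s σ τ (Sum.inl (j, m)) = Sum.inl (j, σ j m) := rfl

lemma auto_inr (s : ℕ) (σ : Fin 3 → Equiv.Perm (Fin s)) (τ : Fin 2 → Equiv.Perm (Fin 2))
    (a : Fin 2) (e : Fin 2) : auto s σ τ (Sum.inr (a, e)) = Sum.inr (a, τ a e) := rfl

lemma cnt_add {s : ℕ} (c : W s → Fin 2) (j : Fin 3) : cnt c j 0 + cnt c j 1 = s := by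
  have h2 := Finset.card_filter_add_card_filter_not (s := (univ : Finset (Fin s)))
    (fun m : Fin s => c (Sum.inl (j, m)) = 0)
  simp only [card_univ, Fintype.card_fin] at h2
  unfold cnt
  have h3 : univ.filter (fun m : Fin s => c (Sum.inl (j, m)) = 1) =
      univ.filter (fun m : Fin s => ¬ c (Sum.inl (j, m)) = 0) := by
    ext m
    simp only [mem_filter, mem_univ, true_and]
    omega
  rw [h3]
  exact h2

lemma card_two_ind (f : Fin 2 → Fin 2) (p : Fin 2) (h : ind (f 0) p + ind (f 1) p = 1) :
    (univ.filter (fun e => f e = p)).card = 1 := by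
  rw [card_two]
  exact h

lemma to_col (n s : ℕ) (hs : s = 2 * n + 1) (c : W s → Fin 2)
    (h : ∀ v i, 2 * nbrsIn (H s) c v i = deg (H s) v) :
    ∃ t, t ≤ n ∧ ∃ φ : H s ≃g H s,
      ∀ v w, c v = c w ↔ col s t (φ v) = col s t (φ w) := by
  have hs0 : 0 < s := by omega
  obtain ⟨p, hp⟩ : ∃ p : Fin 2, cnt c 1 p ≤ n := by
    have := cnt_add c 1
    by_cases h0 : cnt c 1 0 ≤ n
    · exact ⟨0, h0⟩
    · exact ⟨1, by omega⟩
  set t := cnt c 1 p with ht
  refine ⟨t, hp, ?_⟩
  have hA : cnt c 0 p = s - t := by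
    have := h (Sum.inr (0, 0)) p
    rw [nbrs_inr0, deg_inr] at this
    omega
  have hC : cnt c 2 p = s - t := by
    have := h (Sum.inr (1, 0)) p
    rw [nbrs_inr1, deg_inr] at this
    omega
  have hX0 : ind (c (Sum.inr (0, 0))) p + ind (c (Sum.inr (0, 1))) p = 1 := by
    have := h (Sum.inl (0, ⟨0, hs0⟩)) p
    rw [nbrs_inl0, deg_inl0] at this
    omega
  have hX1 : ind (c (Sum.inr (1, 0))) p + ind (c (Sum.inr (1, 1))) p = 1 := by
    have := h (Sum.inl (2, ⟨0, hs0⟩)) p
    rw [nbrs_inl2, deg_inl2] at this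
    omega
  obtain ⟨σ0, hσ0⟩ := exists_perm s (s - t) (fun m => c (Sum.inl (0, m)) = p) hA (by omega)
  obtain ⟨σ1, hσ1⟩ := exists_perm s t (fun m => c (Sum.inl (1, m)) = p) rfl (by omega)
  obtain ⟨σ2, hσ2⟩ := exists_perm s (s - t) (fun m => c (Sum.inl (2, m)) = p) hC (by omega)
  obtain ⟨τ0, hτ0⟩ := exists_perm 2 1 (fun e => c (Sum.inr (0, e)) = p)
    (card_two_ind (fun e => c (Sum.inr (0, e))) p hX0) (by omega)
  obtain ⟨τ1, hτ1⟩ := exists_perm 2 1 (fun e => c (Sum.inr (1, e)) = p)
    (card_two_ind (fun e => c (Sum.inr (1, e))) p hX1) (by omega)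
  have key : ∀ v, c v = p ↔ col s t (auto s ![σ0, σ1, σ2] ![τ0, τ1] v) = 0 := by
    intro v
    rcases v with ⟨j, m⟩ | ⟨a, e⟩
    · rw [auto_inl]
      fin_cases j
      · change c (Sum.inl (0, m)) = p ↔ col s t (Sum.inl (0, σ0 m)) = 0
        rw [hσ0 m]
        simp [col]
        omega
      · change c (Sum.inl (1, m)) = p ↔ col s t (Sum.inl (1, σ1 m)) = 0
        rw [hσ1 m]
        simp [col]
      · change c (Sum.inl (2, m)) = p ↔ col s t (Sum.inl (2, σ2 m)) = 0
        rw [hσ2 m]
        simp [col]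
        omega
    · rw [auto_inr]
      fin_cases a
      · change c (Sum.inr (0, e)) = p ↔ col s t (Sum.inr (0, τ0 e)) = 0
        rw [hτ0 e]
        simp only [col]
        omega
      · change c (Sum.inr (1, e)) = p ↔ col s t (Sum.inr (1, τ1 e)) = 0
        rw [hτ1 e]
        simp only [col]
        omega
  refine ⟨auto s ![σ0, σ1, σ2] ![τ0, τ1], fun v w => ?_⟩
  have kv := key v
  have kw := key w
  have two : ∀ x y z : Fin 2, x = y ↔ (x = z ↔ y = z) := by decide
  rw [two _ _ p, kv, kw, ← two]

/-- class sizes -/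
noncomputable def size {s : ℕ} (c : W s → Fin 2) (i : Fin 2) : ℕ :=
  (univ.filter (fun w : W s => c w = i)).card

lemma size_eq {s : ℕ} (c : W s → Fin 2) (i : Fin 2) :
    size c i = cnt c 0 i + cnt c 1 i + cnt c 2 i +
      (ind (c (Sum.inr (0, 0))) i + ind (c (Sum.inr (0, 1))) i) +
      (ind (c (Sum.inr (1, 0))) i + ind (c (Sum.inr (1, 1))) i) := by
  classical
  unfold size cnt ind
  simp only [card_filter]
  rw [Fintype.sum_sum_type, Fintype.sum_prod_type, Fintype.sum_prod_type]
  simp only [Fin.sum_univ_two]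
  rw [Fin.sum_univ_three]
  ring

lemma size_col (s t : ℕ) (h : t ≤ s) :
    size (col s t) 0 = (s - t) + t + (s - t) + 2 ∧ size (col s t) 1 = t + (s - t) + t + 2 := by
  have h1 := cnt_col_1 s t h
  have h0 := cnt_col_0 s t h 0 (by decide)
  have h2 := cnt_col_0 s t h 2 (by decide)
  constructor
  · rw [size_eq, h0.1, h1.1, h2.1]
    simp [col, ind]
  · rw [size_eq, h0.2, h1.2, h2.2]
    simp [col, ind]

lemma size_map {s : ℕ} (c c' : W s → Fin 2) (φ : H s ≃g H s)
    (h : ∀ v w, c v = c w ↔ c' (φ v) = c' (φ w)) (v : W s) :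
    size c (c v) = size c' (c' (φ v)) := by
  classical
  unfold size
  apply Finset.card_bij (fun w _ => φ w)
  · intro w hw
    simp only [mem_filter, mem_univ, true_and] at hw ⊢
    exact (h _ _).1 hw
  · intro w _ w' _ e
    exact φ.injective e
  · intro w hw
    simp only [mem_filter, mem_univ, true_and] at hw ⊢
    refine ⟨φ.symm w, ?_, by simp⟩
    rw [h]
    simpa using hw

lemma main_count (n s : ℕ) (hs : s = 2 * n + 1) : numIrreducible (H s) = n + 2 := by
  have hs0 : 0 < s := by omega
  let f : Option (Fin (n + 1)) → Quotient (autSetoid (H s)) := fun o =>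
    match o with
    | none => Quotient.mk _ ⟨Setoid.ker (bip s), bip_irr s hs0⟩
    | some t => Quotient.mk _ ⟨Setoid.ker (col s t.val), col_irr s hs0 t.val (by omega)⟩
  have ne1 : ∀ t, f none ≠ f (some t) := by
    intro t e
    obtain ⟨φ, hφ⟩ := Quotient.exact e
    have hφ' : ∀ v w, bip s v = bip s w ↔ col s t.val (φ v) = col s t.val (φ w) := hφ
    set v' : W s := Sum.inl (0, ⟨0, hs0⟩) with hv'
    set w' : W s := Sum.inr (0, col s t.val v') with hw'
    have hadj : (H s).Adj v' w' := by simp [hv', hw', H_adj, adj]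
    have hcol : col s t.val v' = col s t.val w' := rfl
    have hadj2 : (H s).Adj (φ.symm v') (φ.symm w') := by
      rw [SimpleGraph.Iso.map_adj_iff]; exact hadj
    have hb : bip s (φ.symm v') = bip s (φ.symm w') := by
      rw [hφ']
      simpa using hcol
    rw [H_adj] at hadj2
    generalize φ.symm v' = x at hadj2 hb
    generalize φ.symm w' = y at hadj2 hb
    rcases x with x | x <;> rcases y with y | y <;> simp [adj, bip] at hadj2 hb
  have ne2 : ∀ t t', f (some t) = f (some t') → t = t' := by
    intro t t' e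
    obtain ⟨φ, hφ⟩ := Quotient.exact e
    have hφ' : ∀ v w, col s t.val v = col s t.val w ↔
      col s t'.val (φ v) = col s t'.val (φ w) := hφ
    have h1 := size_map (col s t.val) (col s t'.val) φ hφ' (Sum.inr (0, 0))
    have h2 : col s t.val (Sum.inr (0, 0)) = 0 := rfl
    rw [h2] at h1
    have h3 := size_col s t.val (by omega)
    have h4 := size_col s t'.val (by omega)
    rw [h3.1] at h1
    have h5 := t.isLt
    have h6 := t'.isLt
    have h7 : col s t'.val (φ (Sum.inr (0, 0))) = 0 ∨ col s t'.val (φ (Sum.inr (0, 0))) = 1 := by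
      omega
    apply Fin.ext
    rcases h7 with h7 | h7
    · rw [h7, h4.1] at h1
      omega
    · rw [h7, h4.2] at h1
      omega
  have hinj : Function.Injective f := by
    intro o o' e
    rcases o with _ | t <;> rcases o' with _ | t'
    · rfl
    · exact absurd e (ne1 t')
    · exact absurd e.symm (ne1 t)
    · rw [ne2 t t' e]
  have hsurj : Function.Surjective f := by
    intro q
    induction q using Quotient.inductionOn with
    | h r =>
      obtain ⟨r, hr⟩ := r
      obtain ⟨c, hc, hcase⟩ := irr_cases s hs0 r hr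
      rcases hcase with hcase | hcase
      · refine ⟨none, ?_⟩
        apply Quotient.sound
        refine ⟨SimpleGraph.Iso.refl, fun v w => ?_⟩
        change bip s v = bip s w ↔ r v w
        rw [hc, eq_bip s hs0 c hcase]
      · obtain ⟨t, ht, φ, hφ⟩ := to_col n s hs c hcase
        refine ⟨some ⟨t, by omega⟩, ?_⟩
        apply Quotient.sound
        apply (autSetoid (H s)).symm
        refine ⟨φ, fun v w => ?_⟩
        change r v w ↔ col s t (φ v) = col s t (φ w)
        rw [hc, hφ]
  unfold numIrreducible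
  rw [← Nat.card_congr (Equiv.ofBijective f ⟨hinj, hsurj⟩)]
  simp

lemma unit_count : numIrreducible (⊥ : SimpleGraph Unit) = 1 := by
  have hirr : IsIrreducible (⊥ : SimpleGraph Unit) ⊥ := by
    refine ⟨⟨1, fun _ => 0, ⟨0, le_refl _, by norm_num, ?_⟩, ?_⟩, ?_⟩
    · intro v i
      have h1 : nbrsIn (⊥ : SimpleGraph Unit) (fun _ => (0 : Fin 1)) v i = 0 := by
        unfold nbrsIn; simp
      have h2 : deg (⊥ : SimpleGraph Unit) v = 0 := by
        unfold deg; simp
      rw [h1, h2]
      simp
    · intro v w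
      simp
    · intro r' _ h
      exact le_bot_iff.1 h
  have huniq : ∀ r : Setoid Unit, r = ⊥ := by
    intro r
    apply Setoid.ext
    intro v w
    constructor
    · intro _
      rfl
    · intro _
      exact r.refl _
  unfold numIrreducible
  rw [Nat.card_eq_one_iff_unique]
  constructor
  · refine ⟨fun a b => ?_⟩
    induction a using Quotient.inductionOn with
    | h a =>
      induction b using Quotient.inductionOn with
      | h b =>
        congr 1
        apply Subtype.ext
        rw [huniq a.1, huniq b.1]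
  · exact ⟨Quotient.mk _ ⟨⊥, hirr⟩⟩

/-- For every positive integer `b` there is a finite connected simple graph with exactly `b`
irreducible FAT colorings. -/
theorem result : ∀ b : ℕ, 1 ≤ b →
    ∃ (V : Type) (_ : Fintype V) (G : SimpleGraph V), G.Connected ∧ numIrreducible G = b := by
  intro b hb
  obtain rfl | hb2 : b = 1 ∨ 2 ≤ b := by omega
  · refine ⟨Unit, inferInstance, ⊥, ?_, unit_count⟩
    exact SimpleGraph.connected_bot_iff.2 ⟨inferInstance, inferInstance⟩
  · obtain ⟨n, rfl⟩ : ∃ n, b = n + 2 := ⟨b - 2, by omega⟩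
    exact ⟨W (2 * n + 1), inferInstance, H (2 * n + 1), connected _ (by omega), main_count n _ rfl⟩

end Pool.Agent.Results.MP_48b99b_co.EveryCount
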